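import Mathlib

set_option autoImplicit false

open Finset

namespace Pool.Agent.R11.SpexTree

/-- The eight edges of the tree `T9`. -/
def E9 : Finset (Fin 9 × Fin 9) :=
  {(0, 1), (0, 2), (0, 3), (1, 4), (2, 5), (3, 6), (3, 7), (3, 8)}

/-- A tree on nine vertices: `0` is adjacent to `1, 2, 3`; `1` and `2` have one further leaf each,
`3` has three further leaves. -/
def T9 : SimpleGraph (Fin 9) where
  Adj a b := (a, b) ∈ E9 ∨ (b, a) ∈ E9
  symm := ⟨fun _ _ h => h.symm⟩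
  loopless := ⟨by intro a h; revert a; decide⟩

instance T9_dec : DecidableRel T9.Adj := fun a b => by unfold T9; infer_instance

variable {V : Type*}

theorem T9_of (G : SimpleGraph V) (g : Fin 9 → V) (hinj : Function.Injective g)
    (h : ∀ p ∈ E9, G.Adj (g p.1) (g p.2)) : T9.IsContained G := by
  refine ⟨⟨⟨g, ?_⟩, hinj⟩⟩
  intro a b hab
  rcases hab with hab | hab
  · exact h _ hab
  · exact (h _ hab).symm

theorem T9_tuple (G : SimpleGraph V) (x a1 a2 a3 b1 b2 d1 d2 d3 : V)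
    (hnd : [x, a1, a2, a3, b1, b2, d1, d2, d3].Nodup)
    (h1 : G.Adj x a1) (h2 : G.Adj x a2) (h3 : G.Adj x a3) (h4 : G.Adj a1 b1) (h5 : G.Adj a2 b2)
    (h6 : G.Adj a3 d1) (h7 : G.Adj a3 d2) (h8 : G.Adj a3 d3) : T9.IsContained G := by
  apply T9_of G ![x, a1, a2, a3, b1, b2, d1, d2, d3]
  · rw [← List.nodup_ofFn]
    exact hnd
  · intro p hp
    simp only [E9, mem_insert, mem_singleton] at hp
    rcases hp with h | h | h | h | h | h | h | h <;> subst h <;> assumption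

variable [Fintype V] [DecidableEq V] (G : SimpleGraph V) [DecidableRel G.Adj]

/-- no two disjoint edges, each with a designated end adjacent to `w`, outside `Q` and `w` -/
def Forb (w : V) (Q : Finset V) : Prop :=
  ∀ v1 c1 v2 c2, G.Adj w v1 → G.Adj w v2 → G.Adj v1 c1 → G.Adj v2 c2 → v1 ∉ Q → c1 ∉ Q → v2 ∉ Q →
    c2 ∉ Q → c1 ≠ w → c2 ≠ w → v1 ≠ v2 → c1 ≠ c2 → v1 ≠ c2 → c1 ≠ v2 → False

theorem forb_big (hfree : ¬ T9.IsContained G) {w u : V} (hwu : G.Adj w u) (hu : 9 ≤ G.degree u) :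
    Forb G w {u} := by
  intro v1 c1 v2 c2 hv1 hv2 e1 e2 q1 q2 q3 q4 w1 w2 n1 n2 n3 n4
  rw [mem_singleton] at q1 q2 q3 q4
  have hcard : 3 ≤ (G.neighborFinset u \ {w, v1, c1, v2, c2}).card := by
    have h1 : (G.neighborFinset u).card = G.degree u := G.card_neighborFinset_eq_degree u
    have h2 := Finset.le_card_sdiff ({w, v1, c1, v2, c2} : Finset V) (G.neighborFinset u)
    have h3 : ({w, v1, c1, v2, c2} : Finset V).card ≤ 5 := Finset.card_le_five
    omega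
  obtain ⟨D, hD, hD3⟩ := Finset.exists_subset_card_eq hcard
  obtain ⟨d1, d2, d3, hd12, hd13, hd23, rfl⟩ := Finset.card_eq_three.1 hD3
  have m1 := hD (by simp : d1 ∈ ({d1, d2, d3} : Finset V))
  have m2 := hD (by simp : d2 ∈ ({d1, d2, d3} : Finset V))
  have m3 := hD (by simp : d3 ∈ ({d1, d2, d3} : Finset V))
  simp only [mem_sdiff, SimpleGraph.mem_neighborFinset, mem_insert, mem_singleton, not_or] at m1 m2 m3
  obtain ⟨m1, m11, m12, m13, m14, m15⟩ := m1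
  obtain ⟨m2, m21, m22, m23, m24, m25⟩ := m2
  obtain ⟨m3, m31, m32, m33, m34, m35⟩ := m3
  apply hfree
  have := hv1.ne
  have := hv2.ne
  have := hwu.ne
  have := e1.ne
  have := e2.ne
  have := m1.ne
  have := m2.ne
  have := m3.ne
  refine T9_tuple G w v1 v2 u c1 c2 d1 d2 d3 ?_ hv1 hv2 hwu e1 e2 m1 m2 m3
  simp only [List.nodup_cons, List.mem_cons, List.not_mem_nil, or_false, not_or, not_false_eq_true,
    List.nodup_nil, and_true]
  refine ⟨⟨?_, ?_, ?_, ?_, ?_, ?_, ?_, ?_⟩, ⟨?_, ?_, ?_, ?_, ?_, ?_, ?_⟩, ⟨?_, ?_, ?_, ?_, ?_, ?_⟩,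
    ⟨?_, ?_, ?_, ?_, ?_⟩, ⟨?_, ?_, ?_, ?_⟩, ⟨?_, ?_, ?_⟩, ⟨?_, ?_⟩, ?_⟩ <;>
    first | assumption | (apply Ne.symm; assumption)

theorem forb_small (hfree : ¬ T9.IsContained G) {w a : V} (hwa : G.Adj w a) {B : Finset V}
    (hB : B ⊆ (G.neighborFinset a).erase w) (hB3 : B.card = 3) :
    Forb G w (insert a B) := by
  intro v1 c1 v2 c2 hv1 hv2 e1 e2 q1 q2 q3 q4 w1 w2 n1 n2 n3 n4
  obtain ⟨d1, d2, d3, hd12, hd13, hd23, rfl⟩ := Finset.card_eq_three.1 hB3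
  have m1 := hB (by simp : d1 ∈ ({d1, d2, d3} : Finset V))
  have m2 := hB (by simp : d2 ∈ ({d1, d2, d3} : Finset V))
  have m3 := hB (by simp : d3 ∈ ({d1, d2, d3} : Finset V))
  simp only [mem_erase, SimpleGraph.mem_neighborFinset] at m1 m2 m3
  obtain ⟨m11, m1⟩ := m1
  obtain ⟨m21, m2⟩ := m2
  obtain ⟨m31, m3⟩ := m3
  simp only [mem_insert, mem_singleton, not_or] at q1 q2 q3 q4
  obtain ⟨q11, q12, q13, q14⟩ := q1
  obtain ⟨q21, q22, q23, q24⟩ := q2
  obtain ⟨q31, q32, q33, q34⟩ := q3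
  obtain ⟨q41, q42, q43, q44⟩ := q4
  apply hfree
  have := hv1.ne
  have := hv2.ne
  have := hwa.ne
  have := e1.ne
  have := e2.ne
  have := m1.ne
  have := m2.ne
  have := m3.ne
  refine T9_tuple G w v1 v2 a c1 c2 d1 d2 d3 ?_ hv1 hv2 hwa e1 e2 m1 m2 m3
  simp only [List.nodup_cons, List.mem_cons, List.not_mem_nil, or_false, not_or, not_false_eq_true,
    List.nodup_nil, and_true]
  refine ⟨⟨?_, ?_, ?_, ?_, ?_, ?_, ?_, ?_⟩, ⟨?_, ?_, ?_, ?_, ?_, ?_, ?_⟩, ⟨?_, ?_, ?_, ?_, ?_, ?_⟩,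
    ⟨?_, ?_, ?_, ?_, ?_⟩, ⟨?_, ?_, ?_, ?_⟩, ⟨?_, ?_, ?_⟩, ⟨?_, ?_⟩, ?_⟩ <;>
    first | assumption | (apply Ne.symm; assumption)

variable {G}

theorem star {w : V} {Q : Finset V} (hF : Forb G w Q) {v1 c1 : V} (h1 : G.Adj w v1)
    (h2 : G.Adj v1 c1) (h3 : v1 ∉ Q) (h4 : c1 ∉ Q) (h5 : c1 ≠ w) {v c : V} (k1 : G.Adj w v)
    (k2 : v ∉ Q) (k3 : v ≠ v1) (k4 : v ≠ c1) (k5 : G.Adj v c) (k6 : c ∉ Q) (k7 : c ≠ w) :
    c = v1 ∨ c = c1 := by
  by_contra hcon
  push Not at hcon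
  exact hF v1 c1 v c h1 k1 h2 k5 h3 h4 k2 k6 h5 k7 k3.symm hcon.2.symm hcon.1.symm k4.symm

theorem three_big (hfree : ¬ T9.IsContained G) {z p q r : V} (hp : G.Adj z p) (hq : G.Adj z q)
    (hr : G.Adj z r) (bp : 9 ≤ G.degree p) (bq : 9 ≤ G.degree q) (br : 9 ≤ G.degree r)
    (pq : p ≠ q) (pr : p ≠ r) (qr : q ≠ r) : False := by
  have h1 : ∃ c ∈ G.neighborFinset p, c ∉ ({z, q, r} : Finset V) := by
    apply Finset.exists_mem_notMem_of_card_lt_card
    have h3 : ({z, q, r} : Finset V).card ≤ 3 := Finset.card_le_three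
    rw [G.card_neighborFinset_eq_degree p]
    omega
  obtain ⟨c, hc, hc'⟩ := h1
  have h2 : ∃ d ∈ G.neighborFinset q, d ∉ ({z, p, r, c} : Finset V) := by
    apply Finset.exists_mem_notMem_of_card_lt_card
    have h3 : ({z, p, r, c} : Finset V).card ≤ 4 := Finset.card_le_four
    rw [G.card_neighborFinset_eq_degree q]
    omega
  obtain ⟨d, hd, hd'⟩ := h2
  simp only [SimpleGraph.mem_neighborFinset, mem_insert, mem_singleton, not_or] at hc hc' hd hd'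
  exact forb_big G hfree hr br p c q d hp hq hc hd (by simpa using pr) (by simpa using hc'.2.2)
    (by simpa using qr) (by simpa using hd'.2.2.1) hc'.1 hd'.1 pq (Ne.symm hd'.2.2.2)
    (Ne.symm hd'.2.1) hc'.2.1

theorem sum_exc (s Ex : Finset V) (g : V → ℕ) (k M : ℕ) (h1 : ∀ v ∈ s, v ∉ Ex → g v ≤ k)
    (h2 : ∀ v ∈ s, v ∈ Ex → g v ≤ M) : ∑ v ∈ s, g v ≤ k * s.card + M * Ex.card := by
  have : ∀ v ∈ s, g v ≤ k + (if v ∈ Ex then M else 0) := by
    intro v hv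
    by_cases h : v ∈ Ex
    · rw [if_pos h]; have := h2 v hv h; omega
    · rw [if_neg h]; have := h1 v hv h; omega
  calc ∑ v ∈ s, g v ≤ ∑ v ∈ s, (k + (if v ∈ Ex then M else 0)) := Finset.sum_le_sum this
    _ = k * s.card + ∑ v ∈ s, (if v ∈ Ex then M else 0) := by
        rw [Finset.sum_add_distrib, Finset.sum_const, smul_eq_mul, mul_comm]
    _ ≤ k * s.card + M * Ex.card := by
        have : ∑ v ∈ s, (if v ∈ Ex then M else 0) ≤ M * Ex.card := by
          rw [← Finset.sum_filter, Finset.sum_const, smul_eq_mul, mul_comm]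
          apply Nat.mul_le_mul_left
          apply Finset.card_le_card
          intro v hv
          exact (Finset.mem_filter.1 hv).2
        omega

end Pool.Agent.R11.SpexTree
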