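import Mathlib

set_option autoImplicit false

namespace Pool.Agent.R11.SpexTree

/-- The graph `K̄_l ∨ m S_δ`: `l` pairwise nonadjacent vertices, all joined to every vertex of
`m` disjoint stars on `δ` vertices each (the centre of the `i`-th star is `(i, 0)`). -/
def emptyJoinStars (l m δ : ℕ) : SimpleGraph (Fin l ⊕ (Fin m × Fin δ)) where
  Adj p q := match p, q with
    | Sum.inl _, Sum.inl _ => False
    | Sum.inl _, Sum.inr _ => True
    | Sum.inr _, Sum.inl _ => True
    | Sum.inr a, Sum.inr b =>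
        a.1 = b.1 ∧ ((a.2.val = 0 ∧ b.2.val ≠ 0) ∨ (a.2.val ≠ 0 ∧ b.2.val = 0))
  symm := ⟨by
    rintro (a | a) (b | b) h
    · exact h
    · trivial
    · trivial
    · exact ⟨h.1.symm, h.2.elim (fun k => Or.inr ⟨k.2, k.1⟩) (fun k => Or.inl ⟨k.2, k.1⟩)⟩⟩
  loopless := ⟨by
    rintro (a | a) h
    · exact h
    · rcases h.2 with k | k
      · exact k.2 k.1
      · exact k.1 k.2⟩

open Classical in
/-- The class `T_{m,l+1}^δ`: trees on `m` vertices whose smaller colour class `A` has `l + 1`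
vertices and minimum degree `δ`; if both classes have `l + 1` vertices then `A` is a class of
smaller minimum degree. -/
def InClass (m l δ : ℕ) (T : SimpleGraph (Fin m)) : Prop :=
  T.IsTree ∧ ∃ A : Finset (Fin m),
    (∀ a b, T.Adj a b → (a ∈ A ↔ b ∉ A)) ∧ A.card = l + 1 ∧ A.card ≤ Aᶜ.card ∧
    (∀ a ∈ A, δ ≤ T.degree a) ∧ (∃ a ∈ A, T.degree a = δ) ∧
    (A.card = Aᶜ.card → ∀ b ∈ Aᶜ, δ ≤ T.degree b)

open Classical in
/-- The largest eigenvalue of the adjacency matrix of `G`. -/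
noncomputable def lam {n : ℕ} (G : SimpleGraph (Fin n)) : ℝ :=
  sSup {μ : ℝ | ∃ y : Fin n → ℝ, y ≠ 0 ∧ (G.adjMatrix ℝ).mulVec y = μ • y}

/-- `spex(n, T)`: the maximum of the largest eigenvalue over all `T`-free graphs on `n`
vertices. -/
noncomputable def spex (n : ℕ) {m : ℕ} (T : SimpleGraph (Fin m)) : ℝ :=
  sSup {r : ℝ | ∃ G : SimpleGraph (Fin n), T.Free G ∧ r = lam G}

/-- The function `f(x, n)` of the problem, for the parameter `l`. -/
noncomputable def f (l : ℕ) (x n : ℝ) : ℝ :=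
  (l + x - 1 + Real.sqrt ((l + x - 1) ^ 2 + 4 * (n * l + x - l * x - l ^ 2))) / 2

end Pool.Agent.R11.SpexTree
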