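import Pool.Agent.R11.SpexTree.Spec
import Pool.Agent.R11.SpexTree.Defs

set_option autoImplicit false

open Finset

namespace Pool.Agent.R11.SpexTree

/-! ### the tree -/

theorem deg9 (a : Fin 9) (inst : Fintype (T9.neighborSet a)) :
    @SimpleGraph.degree _ T9 a inst = ![3, 2, 2, 4, 1, 1, 1, 1, 1] a := by
  have : inst = SimpleGraph.neighborSetFintype T9 a := Subsingleton.elim _ _
  subst this
  revert a
  decide

theorem T9_tree : T9.IsTree := by
  rw [SimpleGraph.isTree_iff_connected_and_card]
  constructor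
  · have h0 : ∀ v : Fin 9, T9.Reachable 0 v := by
      have e : ∀ a b : Fin 9, (a, b) ∈ E9 → T9.Reachable a b := fun a b h =>
        (show T9.Adj a b from Or.inl h).reachable
      have e1 := e 0 1 (by decide)
      have e2 := e 0 2 (by decide)
      have e3 := e 0 3 (by decide)
      have e4 := e1.trans (e 1 4 (by decide))
      have e5 := e2.trans (e 2 5 (by decide))
      have e6 := e3.trans (e 3 6 (by decide))
      have e7 := e3.trans (e 3 7 (by decide))
      have e8 := e3.trans (e 3 8 (by decide))
      intro v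
      fin_cases v
      · exact SimpleGraph.Reachable.refl _
      all_goals assumption
    exact ⟨fun a b => (h0 a).symm.trans (h0 b)⟩
  · have h1 := T9.sum_degrees_eq_twice_card_edges
    have h2 : ∑ v, T9.degree v = 16 := by
      simp_rw [deg9]
      decide
    rw [Nat.card_eq_fintype_card, SimpleGraph.card_edgeSet, Nat.card_eq_fintype_card,
      Fintype.card_fin]
    omega

theorem T9_class : InClass 9 2 2 T9 := by
  refine ⟨T9_tree, {1, 2, 3}, ?_, ?_, ?_, ?_, ?_, ?_⟩
  · decide
  · decide
  · decide
  · intro a ha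
    rw [deg9]
    revert a
    decide
  · refine ⟨1, by decide, ?_⟩
    rw [deg9]
    decide
  · intro h
    exact absurd h (by decide)

theorem star_unique {p q r : Fin 9 × Fin 2}
    (h1 : (emptyJoinStars 2 9 2).Adj (Sum.inr p) (Sum.inr q))
    (h2 : (emptyJoinStars 2 9 2).Adj (Sum.inr p) (Sum.inr r)) : q = r := by
  obtain ⟨a1, b1⟩ := h1
  obtain ⟨a2, b2⟩ := h2
  apply Prod.ext
  · rw [← a1, ← a2]
  · apply Fin.ext
    have := q.2.isLt
    have := r.2.isLt
    have := p.2.isLt
    omega

theorem pigeon {a b c : Fin 2} (h1 : a ≠ b) (h2 : a ≠ c) (h3 : b ≠ c) : False := by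
  have := a.isLt
  have := b.isLt
  have := c.isLt
  have := Fin.val_ne_of_ne h1
  have := Fin.val_ne_of_ne h2
  have := Fin.val_ne_of_ne h3
  omega

theorem T9_not : ¬ T9.IsContained (emptyJoinStars 2 9 2) := by
  rintro ⟨φ⟩
  obtain ⟨g, hinj⟩ := φ
  have hadj : ∀ a b : Fin 9, (a, b) ∈ E9 → (emptyJoinStars 2 9 2).Adj (g a) (g b) := fun a b h =>
    g.map_adj (Or.inl h)
  have hne : ∀ a b : Fin 9, a ≠ b → g a ≠ g b := fun a b h k => h (hinj k)
  have a1 := hadj 0 1 (by decide)
  have a2 := hadj 0 2 (by decide)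
  have a3 := hadj 0 3 (by decide)
  have a4 := hadj 1 4 (by decide)
  have a5 := hadj 2 5 (by decide)
  have a6 := hadj 3 6 (by decide)
  have a7 := hadj 3 7 (by decide)
  have a8 := hadj 3 8 (by decide)
  have n01 := hne 0 1 (by decide)
  have n02 := hne 0 2 (by decide)
  have n04 := hne 0 4 (by decide)
  have n05 := hne 0 5 (by decide)
  have n06 := hne 0 6 (by decide)
  have n07 := hne 0 7 (by decide)
  have n08 := hne 0 8 (by decide)
  have n67 := hne 6 7 (by decide)
  have n68 := hne 6 8 (by decide)
  have n78 := hne 7 8 (by decide)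
  have n12 := hne 1 2 (by decide)
  have n13 := hne 1 3 (by decide)
  have n23 := hne 2 3 (by decide)
  have n34 := hne 3 4 (by decide)
  have n35 := hne 3 5 (by decide)
  have n24 := hne 2 4 (by decide)
  have n15 := hne 1 5 (by decide)
  have a3' := a3.symm
  have a1' := a1.symm
  have a2' := a2.symm
  generalize g 0 = g0 at *
  generalize g 1 = g1 at *
  generalize g 2 = g2 at *
  generalize g 3 = g3 at *
  generalize g 4 = g4 at *
  generalize g 5 = g5 at *
  generalize g 6 = g6 at *
  generalize g 7 = g7 at *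
  generalize g 8 = g8 at *
  rcases g3 with a | p
  · rcases g0 with b | q
    · exact a3
    · rcases g1 with b | r <;> rcases g2 with c | s
      · exact pigeon (a := a) (b := b) (c := c) (fun h => n13 (by rw [h])) (fun h => n23 (by rw [h]))
          (fun h => n12 (by rw [h]))
      · -- g2 = inr s, g1 = inl b
        rcases g5 with d | t
        · exact pigeon (a := a) (b := b) (c := d) (fun h => n13 (by rw [h]))
            (fun h => n35 (by rw [h])) (fun h => n15 (by rw [h]))
        · exact n05 (by rw [star_unique a2' a5])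
      · rcases g4 with d | t
        · exact pigeon (a := a) (b := c) (c := d) (fun h => n23 (by rw [h]))
            (fun h => n34 (by rw [h])) (fun h => n24 (by rw [h]))
        · exact n04 (by rw [star_unique a1' a4])
      · exact n12 (by rw [star_unique a1 a2])
  · rcases g0 with b | q <;> rcases g6 with c | r <;> rcases g7 with d | s
    · exact pigeon (a := b) (b := c) (c := d) (fun h => n06 (by rw [h])) (fun h => n07 (by rw [h]))
        (fun h => n67 (by rw [h]))
    · rcases g8 with e | t
      · exact pigeon (a := b) (b := c) (c := e) (fun h => n06 (by rw [h]))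
          (fun h => n08 (by rw [h])) (fun h => n68 (by rw [h]))
      · exact n78 (by rw [star_unique a7 a8])
    · rcases g8 with e | t
      · exact pigeon (a := b) (b := d) (c := e) (fun h => n07 (by rw [h]))
          (fun h => n08 (by rw [h])) (fun h => n78 (by rw [h]))
      · exact n68 (by rw [star_unique a6 a8])
    · exact n67 (by rw [star_unique a6 a7])
    · rcases g8 with e | t
      · exact pigeon (a := c) (b := d) (c := e) (fun h => n67 (by rw [h]))
          (fun h => n68 (by rw [h])) (fun h => n78 (by rw [h]))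
      · exact n08 (by rw [star_unique a3' a8])
    · exact n07 (by rw [star_unique a3' a7])
    · exact n06 (by rw [star_unique a3' a6])
    · exact n06 (by rw [star_unique a3' a6])

/-! ### the spectral bound -/

theorem lam_le {n : ℕ} (G : SimpleGraph (Fin n)) (hfree : T9.Free G) :
    lam G ≤ 1 / 2 + Real.sqrt (2 * n + 401) := by
  classical
  have hs : (1 : ℝ) ≤ Real.sqrt (2 * n + 401) := by
    apply Real.le_sqrt_of_sq_le
    have : (0 : ℝ) ≤ n := Nat.cast_nonneg n
    linarith
  unfold lam
  apply Real.sSup_le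
  · rintro μ ⟨y, hy, hA⟩
    by_cases hμ : 1 ≤ μ
    · have h1 := eig_bound G (2 * n + 400) (by
        intro w
        have := row (G := G) hfree w
        rw [Fintype.card_fin] at this
        exact_mod_cast this) μ hμ y hy (by convert hA)
      have h2 : μ - 1 / 2 ≤ Real.sqrt (2 * n + 401) := by
        apply Real.le_sqrt_of_sq_le
        nlinarith
      linarith
    · linarith
  · linarith

theorem spex_le (n : ℕ) : spex n T9 ≤ 1 / 2 + Real.sqrt (2 * n + 401) := by
  unfold spex
  apply Real.sSup_le
  · rintro r ⟨G, hG, rfl⟩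
    exact lam_le G hG
  · positivity

theorem f_eq (n : ℝ) : f 2 (((2 : ℕ) : ℝ) - 1) n = 1 + Real.sqrt (2 * n - 4) := by
  unfold f
  have : (((2 : ℕ) : ℝ) + (((2 : ℕ) : ℝ) - 1) - 1) ^ 2 + 4 * (n * ((2 : ℕ) : ℝ) +
      (((2 : ℕ) : ℝ) - 1) - ((2 : ℕ) : ℝ) * (((2 : ℕ) : ℝ) - 1) - ((2 : ℕ) : ℝ) ^ 2) =
      2 ^ 2 * (2 * n - 4) := by
    push_cast; ring
  rw [this, Real.sqrt_mul (by norm_num), Real.sqrt_sq (by norm_num)]
  push_cast
  ring

theorem gap (n : ℕ) (hn : 1000000 ≤ n) :
    spex n T9 ≤ f 2 (((2 : ℕ) : ℝ) - 1) n - 1 / 4 := by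
  have h1 := spex_le n
  rw [f_eq]
  have hn' : (1000000 : ℝ) ≤ n := by exact_mod_cast hn
  have hs : (1000 : ℝ) ≤ Real.sqrt (2 * n - 4) := by
    apply Real.le_sqrt_of_sq_le
    linarith
  have hsq : Real.sqrt (2 * (n : ℝ) - 4) ^ 2 = 2 * n - 4 := Real.sq_sqrt (by linarith)
  have h2 : Real.sqrt (2 * n + 401) ≤ 1 / 4 + Real.sqrt (2 * n - 4) := by
    rw [Real.sqrt_le_iff]
    constructor
    · linarith
    · nlinarith
  linarith

end Pool.Agent.R11.SpexTree
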