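import Pool.Agent.R11.SpexTree.Comb

set_option autoImplicit false

open Finset

namespace Pool.Agent.R11.SpexTree

variable {V : Type*} [Fintype V] [DecidableEq V] (G : SimpleGraph V) [DecidableRel G.Adj]

/-- `t w v = deg v - 1` for `v` adjacent to `w` -/
def tt (w v : V) : ℕ := ((G.neighborFinset v).erase w).card

theorem tt_le_deg (w v : V) : tt G w v ≤ G.degree v := by
  unfold tt
  rw [← G.card_neighborFinset_eq_degree v]
  exact Finset.card_le_card (Finset.erase_subset _ _)

theorem deg_le (v : V) : G.degree v ≤ Fintype.card V := by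
  rw [← G.card_neighborFinset_eq_degree v]
  exact Finset.card_le_univ _

theorem deg_eq_sum (v : V) : G.degree v = ∑ z, (if G.Adj z v then 1 else 0) := by
  rw [← G.card_neighborFinset_eq_degree v, Finset.sum_boole]
  simp only [Nat.cast_id]
  congr 1
  ext z
  simp [SimpleGraph.adj_comm]

variable {G}

/-- small degree -/
theorem row_small (hfree : ¬ T9.IsContained G) (w : V) (hw : G.degree w ≤ 8) :
    ∑ v ∈ G.neighborFinset w, tt G w v ≤ 2 * Fintype.card V + 400 := by
  have hb : ((G.neighborFinset w).filter (fun v => 9 ≤ G.degree v)).card ≤ 2 := by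
    by_contra hcon
    push Not at hcon
    obtain ⟨p, hp, q, hq, r, hr, pq, pr, qr⟩ := Finset.two_lt_card.1 hcon
    simp only [mem_filter, SimpleGraph.mem_neighborFinset] at hp hq hr
    exact three_big hfree hp.1 hq.1 hr.1 hp.2 hq.2 hr.2 pq pr qr
  rw [← Finset.sum_filter_add_sum_filter_not _ (fun v => 9 ≤ G.degree v)]
  have h1 : ∑ v ∈ (G.neighborFinset w).filter (fun v => 9 ≤ G.degree v), tt G w v ≤
      2 * Fintype.card V := by
    calc _ ≤ ∑ v ∈ (G.neighborFinset w).filter (fun v => 9 ≤ G.degree v), Fintype.card V :=
          Finset.sum_le_sum (fun v _ => (tt_le_deg G w v).trans (deg_le G v))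
      _ ≤ 2 * Fintype.card V := by
          rw [Finset.sum_const, smul_eq_mul]
          exact Nat.mul_le_mul_right _ hb
  have h2 : ∑ v ∈ (G.neighborFinset w).filter (fun v => ¬ 9 ≤ G.degree v), tt G w v ≤ 64 := by
    calc _ ≤ ∑ v ∈ (G.neighborFinset w).filter (fun v => ¬ 9 ≤ G.degree v), 8 := by
          apply Finset.sum_le_sum
          intro v hv
          have h3 := (mem_filter.1 hv).2
          have := tt_le_deg G w v
          omega
      _ ≤ 64 := by
          rw [Finset.sum_const, smul_eq_mul]
          have h3 := Finset.card_filter_le (G.neighborFinset w) (fun v => ¬ 9 ≤ G.degree v)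
          rw [G.card_neighborFinset_eq_degree w] at h3
          omega
  omega

theorem row_1a (hfree : ¬ T9.IsContained G) (w u v0 : V) (hw : 9 ≤ G.degree w)
    (hwu : G.Adj w u) (hu : 9 ≤ G.degree u) (h0 : G.Adj w v0) (hne : v0 ≠ u)
    (hext : 3 ≤ (((G.neighborFinset v0).erase w).erase u).card) :
    ∑ v ∈ G.neighborFinset w, tt G w v ≤ 2 * Fintype.card V + 400 := by
  have hF := forb_big G hfree hwu hu
  have key : ∀ v ∈ ((G.neighborFinset w).erase u).erase v0, tt G w v ≤
      (if G.Adj v u then 1 else 0) + (if G.Adj v v0 then 1 else 0) := by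
    intro v hv
    simp only [mem_erase, SimpleGraph.mem_neighborFinset] at hv
    obtain ⟨hv0, hvu, hwv⟩ := hv
    have hsub : (G.neighborFinset v).erase w ⊆
        (if G.Adj v u then {u} else ∅) ∪ (if G.Adj v v0 then {v0} else ∅) := by
      intro c hc
      simp only [mem_erase, SimpleGraph.mem_neighborFinset] at hc
      by_cases hcu : c = u
      · subst hcu
        rw [if_pos hc.2]
        simp
      · by_cases hcv0 : c = v0
        · subst hcv0
          rw [if_pos hc.2]
          simp
        · exfalso
          -- pick c0 in ext v0 avoiding v, c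
          have : ∃ c0 ∈ ((G.neighborFinset v0).erase w).erase u, c0 ∉ ({v, c} : Finset V) := by
            apply Finset.exists_mem_notMem_of_card_lt_card
            have := Finset.card_le_two (a := v) (b := c)
            omega
          obtain ⟨c0, hc0, hc0'⟩ := this
          simp only [mem_erase, SimpleGraph.mem_neighborFinset, mem_insert, mem_singleton,
            not_or] at hc0 hc0'
          exact hF v0 c0 v c h0 hwv hc0.2.2 hc.2 (by simpa using hne) (by simpa using hc0.1)
            (by simpa using hvu) (by simpa using hcu) hc0.2.1 hc.1 (Ne.symm hv0) hc0'.2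
            (Ne.symm hcv0) hc0'.1
    unfold tt
    refine (Finset.card_le_card hsub).trans ((Finset.card_union_le _ _).trans ?_)
    split_ifs <;> simp
  have hmu : u ∈ G.neighborFinset w := by simpa using hwu
  have hm0 : v0 ∈ (G.neighborFinset w).erase u := by
    rw [mem_erase]
    exact ⟨hne, by simpa using h0⟩
  rw [← Finset.add_sum_erase _ _ hmu, ← Finset.add_sum_erase _ _ hm0]
  have h1 := tt_le_deg G w u
  have h2 := tt_le_deg G w v0
  have h3 : ∑ v ∈ ((G.neighborFinset w).erase u).erase v0, tt G w v ≤
      ∑ v ∈ G.neighborFinset w, ((if G.Adj v u then 1 else 0) + (if G.Adj v v0 then 1 else 0)) := by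
    calc _ ≤ ∑ v ∈ ((G.neighborFinset w).erase u).erase v0,
          ((if G.Adj v u then 1 else 0) + (if G.Adj v v0 then 1 else 0)) := Finset.sum_le_sum key
      _ ≤ _ := Finset.sum_le_sum_of_subset
          ((Finset.erase_subset _ _).trans (Finset.erase_subset _ _))
  have h4 : ∑ v ∈ G.neighborFinset w,
      ((if G.Adj v u then 1 else 0) + (if G.Adj v v0 then 1 else 0)) =
      ∑ v, (if G.Adj w v then ((if G.Adj v u then 1 else 0) + (if G.Adj v v0 then 1 else 0))
        else 0) := by
    rw [← Finset.sum_filter]
    apply Finset.sum_congr _ (fun _ _ => rfl)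
    ext z
    simp
  have h5 : ((univ : Finset V).filter (fun z => G.Adj z w ∧ G.Adj z u ∧ G.Adj z v0)).card ≤ 8 := by
    by_cases hb : 9 ≤ G.degree v0
    · have : (univ : Finset V).filter (fun z => G.Adj z w ∧ G.Adj z u ∧ G.Adj z v0) = ∅ := by
        rw [Finset.filter_eq_empty_iff]
        rintro z - ⟨z1, z2, z3⟩
        exact three_big hfree z1 z2 z3 hw hu hb hwu.ne h0.ne hne.symm
      rw [this]; simp
    · have : (univ : Finset V).filter (fun z => G.Adj z w ∧ G.Adj z u ∧ G.Adj z v0) ⊆
          G.neighborFinset v0 := by
        intro z hz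
        simp only [mem_filter] at hz
        simpa [SimpleGraph.adj_comm] using hz.2.2.2
      have := Finset.card_le_card this
      rw [G.card_neighborFinset_eq_degree v0] at this
      omega
  have h6 : G.degree u + G.degree v0 + ∑ v, (if G.Adj w v then ((if G.Adj v u then 1 else 0) +
      (if G.Adj v v0 then 1 else 0)) else 0) ≤ 2 * Fintype.card V + 2 *
      ((univ : Finset V).filter (fun z => G.Adj z w ∧ G.Adj z u ∧ G.Adj z v0)).card := by
    rw [deg_eq_sum G u, deg_eq_sum G v0, Finset.card_filter, Finset.mul_sum,
      ← Finset.sum_add_distrib, ← Finset.sum_add_distrib]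
    have : 2 * Fintype.card V = ∑ _z : V, 2 := by simp [mul_comm]
    rw [this, ← Finset.sum_add_distrib]
    apply Finset.sum_le_sum
    intro z _
    have hsym : G.Adj w z ↔ G.Adj z w := SimpleGraph.adj_comm G w z
    by_cases c1 : G.Adj z w <;> by_cases c2 : G.Adj z u <;> by_cases c3 : G.Adj z v0 <;>
      simp [hsym, c1, c2, c3]
  rw [h4] at h3
  omega

theorem row_1b (hfree : ¬ T9.IsContained G) (w u : V) (hw : 9 ≤ G.degree w)
    (hwu : G.Adj w u) (hu : 9 ≤ G.degree u)
    (hext : ∀ v, G.Adj w v → v ≠ u → (((G.neighborFinset v).erase w).erase u).card ≤ 2) :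
    ∑ v ∈ G.neighborFinset w, tt G w v ≤ 2 * Fintype.card V + 400 := by
  have hF := forb_big G hfree hwu hu
  have hmu : u ∈ G.neighborFinset w := by simpa using hwu
  rw [← Finset.add_sum_erase _ _ hmu]
  have h1 := (tt_le_deg G w u).trans (deg_le G u)
  have h2 : ((G.neighborFinset w).erase u).card ≤ Fintype.card V := Finset.card_le_univ _
  -- exceptions
  have hEx : ∃ Ex : Finset V, Ex.card ≤ 12 ∧ ∀ v ∈ (G.neighborFinset w).erase u, v ∉ Ex →
      tt G w v ≤ 1 := by
    by_cases hM : ∃ v1, G.Adj w v1 ∧ v1 ≠ u ∧ ∃ c1, G.Adj v1 c1 ∧ c1 ≠ w ∧ c1 ≠ u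
    · obtain ⟨v1, hv1, hv1u, c1, hc1, hc1w, hc1u⟩ := hM
      refine ⟨{v1, c1} ∪ (((G.neighborFinset v1).erase w).erase u) ∪
        (if 9 ≤ G.degree c1 then ∅ else G.neighborFinset c1), ?_, ?_⟩
      · refine (Finset.card_union_le _ _).trans ?_
        have a1 := Finset.card_union_le ({v1, c1} : Finset V)
          (((G.neighborFinset v1).erase w).erase u)
        have a2 := Finset.card_le_two (a := v1) (b := c1)
        have a3 := hext v1 hv1 hv1u
        have a4 : (if 9 ≤ G.degree c1 then ∅ else G.neighborFinset c1).card ≤ 8 := by
          split_ifs with h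
          · simp
          · rw [G.card_neighborFinset_eq_degree c1]; omega
        omega
      · intro v hv hvEx
        simp only [mem_erase, SimpleGraph.mem_neighborFinset] at hv
        simp only [mem_union, mem_insert, mem_singleton, mem_erase, SimpleGraph.mem_neighborFinset,
          not_or] at hvEx
        obtain ⟨⟨⟨hvv1, hvc1⟩, hvn⟩, hvs⟩ := hvEx
        have hvw : v ≠ w := hv.2.ne'
        have hnadj : ¬ G.Adj v v1 := fun h => hvn ⟨hv.1, hvw, h.symm⟩
        have hst : ∀ c, G.Adj v c → c ≠ u → c ≠ w → c = c1 := by
          intro c hc hcu hcw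
          rcases star hF hv1 hc1 (by simpa using hv1u) (by simpa using hc1u) hc1w hv.2
            (by simpa using hv.1) hvv1 hvc1 hc (by simpa using hcu) hcw with h | h
          · subst h; exact absurd hc hnadj
          · exact h
        unfold tt
        rw [Finset.card_le_one]
        have aux : ∀ c, G.Adj v c → c ≠ w → c = u ∨ (c = c1 ∧ ¬ G.Adj v u) := by
          intro c hc hcw
          by_cases hcu : c = u
          · exact Or.inl hcu
          · have hcc := hst c hc hcu hcw
            subst hcc
            refine Or.inr ⟨rfl, fun hvu => ?_⟩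
            by_cases hb : 9 ≤ G.degree c
            · exact three_big hfree hv.2.symm hvu hc hw hu hb hwu.ne (Ne.symm hc1w) (Ne.symm hcu)
            · rw [if_neg hb] at hvs
              apply hvs
              simpa using hc.symm
        intro p hp q hq
        simp only [mem_erase, SimpleGraph.mem_neighborFinset] at hp hq
        rcases aux p hp.2 hp.1 with h | h <;> rcases aux q hq.2 hq.1 with h' | h'
        · rw [h, h']
        · subst h; exact absurd hp.2 h'.2
        · subst h'; exact absurd hq.2 h.2
        · rw [h.1, h'.1]
    · refine ⟨∅, by simp, ?_⟩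
      intro v hv _
      simp only [mem_erase, SimpleGraph.mem_neighborFinset] at hv
      push Not at hM
      have := hM v hv.2 hv.1
      unfold tt
      rw [Finset.card_le_one]
      intro p hp q hq
      simp only [mem_erase, SimpleGraph.mem_neighborFinset] at hp hq
      rw [this p hp.2 hp.1, this q hq.2 hq.1]
  obtain ⟨Ex, hc, hE⟩ := hEx
  have h3 := sum_exc ((G.neighborFinset w).erase u) Ex (tt G w) 1 3 hE (by
    intro v hv _
    simp only [mem_erase, SimpleGraph.mem_neighborFinset] at hv
    have h4 := hext v hv.2 hv.1
    have h5 : ((G.neighborFinset v).erase w).card - 1 ≤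
        (((G.neighborFinset v).erase w).erase u).card := Finset.pred_card_le_card_erase
    unfold tt
    omega)
  omega

theorem row_2 (hfree : ¬ T9.IsContained G) (w : V) (hw : 9 ≤ G.degree w)
    (hsm : ∀ v, G.Adj w v → G.degree v ≤ 8) :
    ∑ v ∈ G.neighborFinset w, tt G w v ≤ 2 * Fintype.card V + 400 := by
  have hn : (G.neighborFinset w).card ≤ Fintype.card V := Finset.card_le_univ _
  have hEx : ∃ Ex : Finset V, Ex.card ≤ 46 ∧ ∀ v ∈ G.neighborFinset w, v ∉ Ex →
      tt G w v ≤ 2 := by
    by_cases hA : ∃ a, G.Adj w a ∧ 3 ≤ ((G.neighborFinset a).erase w).card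
    · obtain ⟨a, hwa, ha⟩ := hA
      obtain ⟨B, hB, hB3⟩ := Finset.exists_subset_card_eq ha
      have hF := forb_small G hfree hwa hB hB3
      have hbb : ∀ v, G.Adj w v →
          (B.filter (fun b => 9 ≤ G.degree b ∧ G.Adj v b)).card ≤ 1 := by
        intro v hv
        rw [Finset.card_le_one]
        intro p hp q hq
        simp only [mem_filter] at hp hq
        by_contra hpq
        have p1 := hB hp.1
        have q1 := hB hq.1
        simp only [mem_erase, SimpleGraph.mem_neighborFinset] at p1 q1
        exact three_big hfree hv.symm hp.2.2 hq.2.2 hw hp.2.1 hq.2.1 (Ne.symm p1.1) (Ne.symm q1.1)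
          hpq
      -- the base exceptional set
      have hcard1 : (insert a B ∪ G.neighborFinset a ∪
          (B.filter (fun b => ¬ 9 ≤ G.degree b)).biUnion (fun b => G.neighborFinset b)).card ≤
          36 := by
        have a1 := Finset.card_union_le (insert a B ∪ G.neighborFinset a)
          ((B.filter (fun b => ¬ 9 ≤ G.degree b)).biUnion (fun b => G.neighborFinset b))
        have a2 := Finset.card_union_le (insert a B) (G.neighborFinset a)
        have a3 := Finset.card_insert_le a B
        have a4 := G.card_neighborFinset_eq_degree a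
        have a5 := hsm a hwa
        have a6 : ((B.filter (fun b => ¬ 9 ≤ G.degree b)).biUnion
            (fun b => G.neighborFinset b)).card ≤ 24 := by
          refine (Finset.card_biUnion_le_card_mul _ _ 8 ?_).trans ?_
          · intro b hb
            rw [G.card_neighborFinset_eq_degree b]
            have := (mem_filter.1 hb).2
            omega
          · have := Finset.card_filter_le B (fun b => ¬ 9 ≤ G.degree b)
            omega
        omega
      by_cases hM : ∃ v1, G.Adj w v1 ∧ v1 ∉ insert a B ∧ ∃ c1, G.Adj v1 c1 ∧ c1 ≠ w ∧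
          c1 ∉ insert a B
      · obtain ⟨v1, hv1, hv1Q, c1, hc1, hc1w, hc1Q⟩ := hM
        refine ⟨(insert a B ∪ G.neighborFinset a ∪
          (B.filter (fun b => ¬ 9 ≤ G.degree b)).biUnion (fun b => G.neighborFinset b)) ∪
          ({v1, c1} ∪ G.neighborFinset v1), ?_, ?_⟩
        · have a1 := Finset.card_union_le (insert a B ∪ G.neighborFinset a ∪
            (B.filter (fun b => ¬ 9 ≤ G.degree b)).biUnion (fun b => G.neighborFinset b))
            ({v1, c1} ∪ G.neighborFinset v1)
          have a2 := Finset.card_union_le ({v1, c1} : Finset V) (G.neighborFinset v1)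
          have a3 := Finset.card_le_two (a := v1) (b := c1)
          have a4 := G.card_neighborFinset_eq_degree v1
          have a5 := hsm v1 hv1
          omega
        · intro v hv hvEx
          rw [SimpleGraph.mem_neighborFinset] at hv
          rw [mem_union, not_or, mem_union, not_or, mem_union, not_or, mem_union, not_or] at hvEx
          obtain ⟨⟨⟨hvQ, hva⟩, hvb⟩, hvc, hvd⟩ := hvEx
          simp only [mem_insert, mem_singleton, not_or, SimpleGraph.mem_neighborFinset] at hva hvc hvd
          have hsub : (G.neighborFinset v).erase w ⊆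
              insert c1 (B.filter (fun b => 9 ≤ G.degree b ∧ G.Adj v b)) := by
            intro c hc
            simp only [mem_erase, SimpleGraph.mem_neighborFinset] at hc
            rw [mem_insert, mem_filter]
            by_cases hcQ : c ∈ insert a B
            · right
              rcases mem_insert.1 hcQ with h | h
              · subst h; exact absurd hc.2.symm hva
              · refine ⟨h, ?_, hc.2⟩
                by_contra hb
                apply hvb
                rw [mem_biUnion]
                exact ⟨c, mem_filter.2 ⟨h, hb⟩, by simpa using hc.2.symm⟩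
            · left
              rcases star hF hv1 hc1 hv1Q hc1Q hc1w hv hvQ hvc.1 hvc.2 hc.2 hcQ hc.1 with h | h
              · subst h; exact absurd hc.2.symm hvd
              · exact h
          unfold tt
          have b1 := Finset.card_le_card hsub
          have b2 := Finset.card_insert_le c1 (B.filter (fun b => 9 ≤ G.degree b ∧ G.Adj v b))
          have b3 := hbb v hv
          omega
      · refine ⟨insert a B ∪ G.neighborFinset a ∪
          (B.filter (fun b => ¬ 9 ≤ G.degree b)).biUnion (fun b => G.neighborFinset b), by omega, ?_⟩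
        push Not at hM
        intro v hv hvEx
        rw [SimpleGraph.mem_neighborFinset] at hv
        rw [mem_union, not_or, mem_union, not_or] at hvEx
        obtain ⟨⟨hvQ, hva⟩, hvb⟩ := hvEx
        rw [SimpleGraph.mem_neighborFinset] at hva
        have hsub : (G.neighborFinset v).erase w ⊆
            B.filter (fun b => 9 ≤ G.degree b ∧ G.Adj v b) := by
          intro c hc
          simp only [mem_erase, SimpleGraph.mem_neighborFinset] at hc
          rw [mem_filter]
          have hcQ := hM v hv hvQ c hc.2 hc.1
          rcases mem_insert.1 hcQ with h | h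
          · subst h; exact absurd hc.2.symm hva
          · refine ⟨h, ?_, hc.2⟩
            by_contra hb
            apply hvb
            rw [mem_biUnion]
            exact ⟨c, mem_filter.2 ⟨h, hb⟩, by simpa using hc.2.symm⟩
        unfold tt
        have b1 := Finset.card_le_card hsub
        have b3 := hbb v hv
        omega
    · push Not at hA
      refine ⟨∅, by simp, ?_⟩
      intro v hv _
      have := hA v (by simpa using hv)
      unfold tt
      omega
  obtain ⟨Ex, hc, hE⟩ := hEx
  have h3 := sum_exc (G.neighborFinset w) Ex (tt G w) 2 8 hE (by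
    intro v hv _
    have := hsm v (by simpa using hv)
    have := tt_le_deg G w v
    omega)
  omega

theorem row (hfree : ¬ T9.IsContained G) (w : V) :
    ∑ v ∈ G.neighborFinset w, tt G w v ≤ 2 * Fintype.card V + 400 := by
  by_cases hw : 9 ≤ G.degree w
  · by_cases hb : ∃ u, G.Adj w u ∧ 9 ≤ G.degree u
    · obtain ⟨u, hwu, hu⟩ := hb
      by_cases hext : ∃ v, G.Adj w v ∧ v ≠ u ∧ 3 ≤ (((G.neighborFinset v).erase w).erase u).card
      · obtain ⟨v0, h1, h2, h3⟩ := hext
        exact row_1a hfree w u v0 hw hwu hu h1 h2 h3
      · push Not at hext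
        exact row_1b hfree w u hw hwu hu (fun v h1 h2 => by have := hext v h1 h2; omega)
    · push Not at hb
      exact row_2 hfree w hw (fun v hv => by have := hb v hv; omega)
  · exact row_small hfree w (by omega)

end Pool.Agent.R11.SpexTree
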