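import Pool.Agent.R11.SpexTree.Row

set_option autoImplicit false

open Finset

namespace Pool.Agent.R11.SpexTree

variable {V : Type*} [Fintype V] [DecidableEq V] (G : SimpleGraph V) [DecidableRel G.Adj]

/-- Every adjacency eigenvalue `μ` satisfies `μ (μ - 1) ≤` the largest row sum of `A² - A`
whenever `1 ≤ μ`. -/
theorem eig_bound (K : ℝ)
    (hrow : ∀ w : V, ((∑ v ∈ G.neighborFinset w, tt G w v : ℕ) : ℝ) ≤ K)
    (μ : ℝ) (hμ : 1 ≤ μ) (y : V → ℝ) (hy : y ≠ 0) (hA : (G.adjMatrix ℝ).mulVec y = μ • y) :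
    μ * (μ - 1) ≤ K := by
  set z : V → ℝ := fun v => |y v| with hz
  have hz0 : ∀ v, 0 ≤ z v := fun v => abs_nonneg _
  have hAz : ∀ v, μ * z v ≤ ∑ w ∈ G.neighborFinset v, z w := by
    intro v
    have h1 : ∑ w ∈ G.neighborFinset v, y w = μ * y v := by
      have := congrFun hA v
      rw [SimpleGraph.adjMatrix_mulVec_apply] at this
      simpa using this
    have h2 : μ * z v = |∑ w ∈ G.neighborFinset v, y w| := by
      rw [h1, abs_mul, abs_of_nonneg (by linarith : (0:ℝ) ≤ μ)]
    rw [h2]
    exact Finset.abs_sum_le_sum_abs _ _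
  have hpos : 0 < ∑ v, z v := by
    obtain ⟨v, hv⟩ := Function.ne_iff.1 hy
    exact Finset.sum_pos' (fun v _ => hz0 v) ⟨v, Finset.mem_univ _, abs_pos.2 hv⟩
  -- lower bound of the quadratic expression
  have low : μ * (μ - 1) * ∑ v, z v ≤
      ∑ v, ∑ w ∈ G.neighborFinset v, ((∑ u ∈ G.neighborFinset w, z u) - z w) := by
    rw [Finset.mul_sum]
    apply Finset.sum_le_sum
    intro v _
    have h1 : (μ - 1) * (μ * z v) ≤ (μ - 1) * ∑ w ∈ G.neighborFinset v, z w :=
      mul_le_mul_of_nonneg_left (hAz v) (by linarith)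
    have h2 : (μ - 1) * ∑ w ∈ G.neighborFinset v, z w ≤
        ∑ w ∈ G.neighborFinset v, ((∑ u ∈ G.neighborFinset w, z u) - z w) := by
      rw [Finset.mul_sum]
      apply Finset.sum_le_sum
      intro w _
      have := hAz w
      linarith
    linarith
  -- swapping
  have swap1 : ∀ g : V → V → ℝ, ∑ v, ∑ w ∈ G.neighborFinset v, g v w =
      ∑ w, ∑ v ∈ G.neighborFinset w, g v w := by
    intro g
    apply Finset.sum_comm'
    intro a b
    simp [SimpleGraph.adj_comm]
  have up : ∑ v, ∑ w ∈ G.neighborFinset v, ((∑ u ∈ G.neighborFinset w, z u) - z w) =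
      ∑ u, z u * ((∑ v ∈ G.neighborFinset u, tt G u v : ℕ) : ℝ) := by
    have e1 : ∑ v, ∑ w ∈ G.neighborFinset v, ((∑ u ∈ G.neighborFinset w, z u) - z w) =
        ∑ w, ((G.degree w : ℝ) * (∑ u ∈ G.neighborFinset w, z u) - (G.degree w : ℝ) * z w) := by
      rw [swap1]
      apply Finset.sum_congr rfl
      intro w _
      rw [Finset.sum_const, G.card_neighborFinset_eq_degree w, nsmul_eq_mul]
      ring
    have e2 : ∑ w, (G.degree w : ℝ) * (∑ u ∈ G.neighborFinset w, z u) =
        ∑ u, z u * ∑ w ∈ G.neighborFinset u, (G.degree w : ℝ) := by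
      have : ∀ w, (G.degree w : ℝ) * (∑ u ∈ G.neighborFinset w, z u) =
          ∑ u ∈ G.neighborFinset w, (G.degree w : ℝ) * z u := fun w => Finset.mul_sum _ _ _
      simp_rw [this]
      rw [swap1]
      apply Finset.sum_congr rfl
      intro u _
      rw [Finset.mul_sum]
      exact Finset.sum_congr rfl (fun w _ => mul_comm _ _)
    rw [e1, Finset.sum_sub_distrib, e2, ← Finset.sum_sub_distrib]
    apply Finset.sum_congr rfl
    intro u _
    have e3 : ((∑ v ∈ G.neighborFinset u, tt G u v : ℕ) : ℝ) =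
        ∑ w ∈ G.neighborFinset u, ((G.degree w : ℝ) - 1) := by
      push_cast
      apply Finset.sum_congr rfl
      intro w hw
      have hm : u ∈ G.neighborFinset w := by
        rw [SimpleGraph.mem_neighborFinset] at hw ⊢
        exact hw.symm
      have h1 : tt G u w + 1 = G.degree w := by
        unfold tt
        rw [Finset.card_erase_add_one hm, G.card_neighborFinset_eq_degree w]
      rw [← h1]
      push_cast
      ring
    rw [e3, Finset.sum_sub_distrib, Finset.sum_const, G.card_neighborFinset_eq_degree u,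
      nsmul_eq_mul]
    ring
  have up2 : ∑ u, z u * ((∑ v ∈ G.neighborFinset u, tt G u v : ℕ) : ℝ) ≤ K * ∑ u, z u := by
    rw [Finset.mul_sum]
    apply Finset.sum_le_sum
    intro u _
    rw [mul_comm]
    exact mul_le_mul_of_nonneg_right (hrow u) (hz0 u)
  have := low.trans (up.le.trans up2)
  exact le_of_mul_le_mul_right this hpos

end Pool.Agent.R11.SpexTree
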